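import Mathlib

/-!
# The hypersurface `f = u t` and its coverings: algebra
-/

set_option autoImplicit false

open Polynomial

namespace Pool.Agent.Helper13HC

section pev

variable {k : Type} [Field k] {R S : Type} [CommRing R] [Algebra k R] [CommRing S] [Algebra k S]

/-- The homomorphism `R[X] → S` given by `R → S` and an element. -/
noncomputable def pev (ψ : R →ₐ[k] S) (s : S) : R[X] →ₐ[k] S :=
  eval₂AlgHom ψ s fun _ => Commute.all _ _

@[simp] lemma pev_C (ψ : R →ₐ[k] S) (s : S) (a : R) : pev ψ s (C a) = ψ a := by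
  simp [pev]

@[simp] lemma pev_X (ψ : R →ₐ[k] S) (s : S) : pev ψ s X = s := by
  simp [pev]

lemma pev_ext {φ ψ : R[X] →ₐ[k] S} (h : ∀ a, φ (C a) = ψ (C a)) (hX : φ X = ψ X) : φ = ψ :=
  algHom_ext' (AlgHom.ext fun a => h a) hX

lemma pev_ext2 {φ ψ : R[X][X] →ₐ[k] S} (h : ∀ a, φ (C (C a)) = ψ (C (C a)))
    (hU : φ (C X) = ψ (C X)) (hX : φ X = ψ X) : φ = ψ := by
  refine pev_ext (fun a => ?_) hX
  have h1 : φ.comp (CAlgHom : R[X] →ₐ[k] R[X][X]) = ψ.comp (CAlgHom : R[X] →ₐ[k] R[X][X]) :=
    pev_ext (fun a => h a) hU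
  exact DFunLike.congr_fun h1 a

end pev

variable (k : Type) [Field k] {R : Type} [CommRing R] [Algebra k R] (f : R)

/-- The equation `f - u t` in `R[u, t]`. -/
noncomputable def keq : R[X][X] := C (C f) - C X * X

/-- The ring `R[u, t] / (f - u t)`. -/
def KR : Type := R[X][X] ⧸ Ideal.span {keq f}

noncomputable instance : CommRing (KR f) := inferInstanceAs (CommRing (R[X][X] ⧸ Ideal.span {keq f}))

noncomputable instance : Algebra k (KR f) :=
  inferInstanceAs (Algebra k (R[X][X] ⧸ Ideal.span {keq f}))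

/-- The projection. -/
noncomputable def kq : R[X][X] →+* KR f := Ideal.Quotient.mk (Ideal.span {keq f})

variable {f}

/-- The homomorphisms from `R[u, t] / (f - u t)`. -/
noncomputable def klift {S : Type} [CommRing S] [Algebra k S] (ψ : R →ₐ[k] S) (a b : S)
    (h : ψ f = a * b) : KR f →ₐ[k] S :=
  Ideal.Quotient.liftₐ (Ideal.span {keq f}) (pev (pev ψ a) b) fun x hx => by
    obtain ⟨y, rfl⟩ := Ideal.mem_span_singleton'.1 hx
    rw [map_mul]
    have h1 : pev (pev ψ a) b (keq f) = 0 := by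
      rw [keq, map_sub, map_mul, pev_C, pev_C, pev_X, pev_C, pev_X, h, sub_self]
    rw [h1, mul_zero]

lemma klift_q {S : Type} [CommRing S] [Algebra k S] (ψ : R →ₐ[k] S) (a b : S)
    (h : ψ f = a * b) (x : R[X][X]) : klift k ψ a b h (kq f x) = pev (pev ψ a) b x := rfl

lemma k_ext {S : Type} [CommRing S] [Algebra k S] {φ ψ : KR f →ₐ[k] S}
    (h : ∀ a, φ (kq f (C (C a))) = ψ (kq f (C (C a)))) (hU : φ (kq f (C X)) = ψ (kq f (C X)))
    (hX : φ (kq f X) = ψ (kq f X)) : φ = ψ :=
  Ideal.Quotient.algHom_ext k (pev_ext2 (k := k) h hU hX)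

lemma k_rel (f : R) : kq f (C (C f)) = kq f (C X) * kq f X := by
  rw [← map_mul]
  exact (Ideal.Quotient.eq).2 (Ideal.mem_span_singleton_self _)

/-- The inclusion of `R` in `R[u, t] / (f - u t)`. -/
noncomputable def kinc (f : R) : R →ₐ[k] KR f :=
  (Ideal.Quotient.mkₐ k (Ideal.span {keq f})).comp
    ((CAlgHom : R[X] →ₐ[k] R[X][X]).comp (CAlgHom : R →ₐ[k] R[X]))

lemma kinc_apply (a : R) : kinc k f a = kq f (C (C a)) := rfl

/-- The element `u`. -/
noncomputable def ku (f : R) : KR f := kq f (C X)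

/-- The element `t`. -/
noncomputable def kt (f : R) : KR f := kq f X

/-- The localisation at `u` is `R[u, u⁻¹]`. -/
noncomputable def locEquiv (f : R) :
    Localization.Away (ku f) ≃ₐ[k] Localization.Away (X : R[X]) := by
  let L := Localization.Away (X : R[X])
  let N := Localization.Away (ku f)
  let iN : KR f →ₐ[k] N := IsScalarTower.toAlgHom k (KR f) N
  let iL : R[X] →ₐ[k] L := IsScalarTower.toAlgHom k R[X] L
  have hX : IsUnit (iL X) := IsLocalization.Away.algebraMap_isUnit _
  have hu : IsUnit (iN (ku f)) := IsLocalization.Away.algebraMap_isUnit _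
  let ψ : R →ₐ[k] L := iL.comp CAlgHom
  have h1 : ψ f = iL X * (↑hX.unit⁻¹ * iL (C f)) := by
    rw [← mul_assoc, IsUnit.mul_val_inv, one_mul]
    rfl
  let α : KR f →ₐ[k] L := klift k ψ _ _ h1
  have hα : α (ku f) = iL X := by
    change klift k ψ _ _ h1 (kq f (C X)) = _
    rw [klift_q, pev_C, pev_X]
  let β : R[X] →ₐ[k] N := pev (iN.comp (kinc k f)) (iN (ku f))
  have hβ : β X = iN (ku f) := pev_X _ _
  have hα' : ∀ y : Submonoid.powers (ku f), IsUnit (α y) := by
    rintro ⟨_, n, rfl⟩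
    change IsUnit (α (ku f ^ n))
    rw [map_pow, hα]
    exact hX.pow n
  have hβ' : ∀ y : Submonoid.powers (X : R[X]), IsUnit (β y) := by
    rintro ⟨_, n, rfl⟩
    change IsUnit (β (X ^ n))
    rw [map_pow, hβ]
    exact hu.pow n
  let α' : N →ₐ[k] L := IsLocalization.liftAlgHom (M := Submonoid.powers (ku f)) (S := N) hα'
  let β' : L →ₐ[k] N := IsLocalization.liftAlgHom (M := Submonoid.powers (X : R[X])) (S := L) hβ'
  have ha : ∀ x, α' (iN x) = α x := fun x => IsLocalization.lift_eq _ x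
  have hb : ∀ x, β' (iL x) = β x := fun x => IsLocalization.lift_eq _ x
  refine AlgEquiv.ofAlgHom α' β' ?_ ?_
  · refine IsLocalization.algHom_ext (Submonoid.powers (X : R[X])) (pev_ext (fun a => ?_) ?_)
    · change α' (β' (iL (C a))) = iL (C a)
      rw [hb]
      change α' (pev _ _ (C a)) = _
      rw [pev_C]
      change α' (iN (kinc k f a)) = _
      rw [ha, kinc_apply]
      change klift k ψ _ _ h1 (kq f (C (C a))) = _
      rw [klift_q, pev_C, pev_C]
      rfl
    · change α' (β' (iL X)) = iL X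
      rw [hb, hβ, ha, hα]
  · refine IsLocalization.algHom_ext (Submonoid.powers (ku f)) (k_ext k (fun a => ?_) ?_ ?_)
    · change β' (α' (iN (kinc k f a))) = iN (kinc k f a)
      rw [ha]
      change β' (klift k ψ _ _ h1 (kq f (C (C a)))) = _
      rw [klift_q, pev_C, pev_C]
      change β' (iL (C a)) = _
      rw [hb]
      change pev _ _ (C a) = _
      rw [pev_C]
      rfl
    · change β' (α' (iN (ku f))) = iN (ku f)
      rw [ha, hα, hb, hβ]
    · change β' (α' (iN (kt f))) = iN (kt f)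
      rw [ha]
      change β' (klift k ψ _ _ h1 (kq f X)) = _
      rw [klift_q, pev_X]
      have h2 : iN (ku f) * β' (↑hX.unit⁻¹ * iL (C f)) = iN (ku f) * iN (kt f) := by
        have h3 : iN (ku f) = β' (iL X) := by rw [hb, hβ]
        conv_lhs => rw [h3]
        rw [← map_mul, ← mul_assoc, IsUnit.mul_val_inv, one_mul, hb, ← map_mul]
        change pev _ _ (C f) = iN (ku f * kt f)
        rw [pev_C]
        change iN (kinc k f f) = _
        rw [kinc_apply, k_rel]
        rfl
      exact hu.mul_left_cancel h2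

end Pool.Agent.Helper13HC
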