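import Pool.Agent.Helper13HC.Alg

/-!
# The closed subscheme `u = 0` and the finite covering
-/

set_option autoImplicit false

open Polynomial

namespace Pool.Agent.Helper13HC

variable (k : Type) [Field k] {R : Type} [CommRing R] [Algebra k R] (f : R)

/-- The quotient of `R[u, t] / (f - u t)` by `u` is `(R / f)[t]`. -/
noncomputable def closedEquiv :
    (KR f ⧸ Ideal.span {ku f}) ≃ₐ[k] (R ⧸ Ideal.span {f})[X] := by
  let Q := KR f ⧸ Ideal.span {ku f}
  let P := (R ⧸ Ideal.span {f})[X]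
  let ψ : R →ₐ[k] P := (CAlgHom : (R ⧸ Ideal.span {f}) →ₐ[k] P).comp
    (Ideal.Quotient.mkₐ k (Ideal.span {f}))
  have hf : (Ideal.Quotient.mk (Ideal.span {f})) f = 0 :=
    Ideal.Quotient.eq_zero_iff_mem.2 (Ideal.mem_span_singleton_self _)
  have h1 : ψ f = 0 * X := by
    rw [zero_mul]
    change C ((Ideal.Quotient.mk (Ideal.span {f})) f) = 0
    rw [hf, C_0]
  let α : KR f →ₐ[k] P := klift k ψ 0 X h1
  have hα : α (ku f) = 0 := by
    change klift k ψ _ _ h1 (kq f (C X)) = _
    rw [klift_q, pev_C, pev_X]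
  let α' : Q →ₐ[k] P := Ideal.Quotient.liftₐ _ α fun x hx => by
    obtain ⟨y, rfl⟩ := Ideal.mem_span_singleton'.1 hx
    rw [map_mul, hα, mul_zero]
  let m : KR f →ₐ[k] Q := Ideal.Quotient.mkₐ k (Ideal.span {ku f})
  have hm : m (ku f) = 0 := Ideal.Quotient.eq_zero_iff_mem.2 (Ideal.mem_span_singleton_self _)
  let γ : (R ⧸ Ideal.span {f}) →ₐ[k] Q := Ideal.Quotient.liftₐ _ (m.comp (kinc k f))
    fun x hx => by
      obtain ⟨y, rfl⟩ := Ideal.mem_span_singleton'.1 hx
      rw [map_mul]
      have h2 : (m.comp (kinc k f)) f = 0 := by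
        change m (kq f (C (C f))) = 0
        rw [k_rel, map_mul]
        change m (ku f) * _ = 0
        rw [hm, zero_mul]
      rw [h2, mul_zero]
  let β : P →ₐ[k] Q := pev γ (m (kt f))
  refine AlgEquiv.ofAlgHom α' β ?_ ?_
  · refine pev_ext (fun a => ?_) ?_
    · obtain ⟨a, rfl⟩ := Ideal.Quotient.mk_surjective a
      change α' (pev γ (m (kt f)) (C ((Ideal.Quotient.mk _) a))) = C ((Ideal.Quotient.mk _) a)
      rw [pev_C]
      change klift k ψ _ _ h1 (kq f (C (C a))) = _
      rw [klift_q, pev_C, pev_C]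
      rfl
    · change α' (pev γ (m (kt f)) X) = X
      rw [pev_X]
      change klift k ψ _ _ h1 (kq f X) = _
      rw [klift_q, pev_X]
  · refine Ideal.Quotient.algHom_ext k (k_ext k (fun a => ?_) ?_ ?_)
    · change β (klift k ψ _ _ h1 (kq f (C (C a)))) = m (kq f (C (C a)))
      rw [klift_q, pev_C, pev_C]
      change pev γ _ (C ((Ideal.Quotient.mk _) a)) = _
      rw [pev_C]
      rfl
    · change β (α (ku f)) = m (ku f)
      rw [hα, hm, map_zero]
    · change β (klift k ψ _ _ h1 (kq f X)) = m (kt f)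
      rw [klift_q, pev_X]
      exact pev_X _ _

/-- The equation `f + u^(e+1) + u y^e` in `R[u, y]`. -/
noncomputable def weq (e : ℕ) : R[X][X] := C (C f) + C X ^ (e + 1) + C X * X ^ e

/-- The ring `R[u, y] / (f + u^(e+1) + u y^e)`. -/
def WR (e : ℕ) : Type := R[X][X] ⧸ Ideal.span {weq f e}

noncomputable instance (e : ℕ) : CommRing (WR f e) :=
  inferInstanceAs (CommRing (R[X][X] ⧸ Ideal.span {weq f e}))

noncomputable instance (e : ℕ) : Algebra k (WR f e) :=
  inferInstanceAs (Algebra k (R[X][X] ⧸ Ideal.span {weq f e}))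

/-- The polynomial `y^e + t + u^e`. -/
noncomputable def gpol (e : ℕ) : (KR f)[X] := X ^ e + C (kt f + ku f ^ e)

lemma gpol_monic {e : ℕ} (he : 0 < e) : (gpol f e).Monic :=
  monic_X_pow_add_C _ he.ne'

lemma gpol_degree [Nontrivial (KR f)] {e : ℕ} : (gpol f e).natDegree = e :=
  natDegree_X_pow_add_C

/-- The ring `R[u, y] / (f + u^(e+1) + u y^e)` is obtained from `R[u, t] / (f - u t)` by adjoining a
root of `y^e + t + u^e`. -/
noncomputable def coverEquiv (e : ℕ) : AdjoinRoot (gpol f e) ≃ₐ[k] WR f e := by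
  let q : R[X][X] →ₐ[k] WR f e := Ideal.Quotient.mkₐ k (Ideal.span {weq f e})
  let a : R[X][X] := -(X ^ e + C X ^ e)
  have hq : q (weq f e) = 0 :=
    Ideal.Quotient.eq_zero_iff_mem.2 (Ideal.mem_span_singleton_self _)
  let i : R →ₐ[k] R[X][X] := (CAlgHom : R[X] →ₐ[k] R[X][X]).comp (CAlgHom : R →ₐ[k] R[X])
  have h1 : (q.comp i) f = q (C X) * q a := by
    rw [← map_mul]
    have h2 : q (C (C f)) - q (C X * a) = q (weq f e) := by
      rw [← map_sub, weq]
      congr 1
      change C (C f) - C X * (-(X ^ e + C X ^ e)) = _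
      ring
    rw [hq, sub_eq_zero] at h2
    exact h2
  let α : KR f →ₐ[k] WR f e := klift k (q.comp i) _ _ h1
  have hαu : α (ku f) = q (C X) := by
    change klift k _ _ _ h1 (kq f (C X)) = _
    rw [klift_q, pev_C, pev_X]
  have hαt : α (kt f) = q a := by
    change klift k _ _ _ h1 (kq f X) = _
    rw [klift_q, pev_X]
  have h3 : (gpol f e).eval₂ (α : KR f →+* WR f e) (q X) = 0 := by
    rw [gpol, eval₂_add, eval₂_pow, eval₂_X, eval₂_C]
    change q X ^ e + α (kt f + ku f ^ e) = 0
    rw [map_add, map_pow, hαu, hαt, ← map_pow, ← map_pow, ← map_add, ← map_add]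
    have h4 : (X ^ e + (a + C X ^ e) : R[X][X]) = 0 := by
      change X ^ e + (-(X ^ e + C X ^ e) + C X ^ e) = 0
      ring
    rw [h4, map_zero]
  let α' : AdjoinRoot (gpol f e) →ₐ[k] WR f e := AdjoinRoot.liftAlgHom _ α (q X) h3
  let o : KR f →ₐ[k] AdjoinRoot (gpol f e) := AdjoinRoot.ofAlgHom k (gpol f e)
  have hroot : AdjoinRoot.root (gpol f e) ^ e + o (kt f + ku f ^ e) = 0 := by
    have h5 := AdjoinRoot.eval₂_root (gpol f e)
    rw [gpol, eval₂_add, eval₂_pow, eval₂_X, eval₂_C] at h5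
    exact h5
  let β : WR f e →ₐ[k] AdjoinRoot (gpol f e) :=
    Ideal.Quotient.liftₐ _ (pev (pev (o.comp (kinc k f)) (o (ku f)))
      (AdjoinRoot.root (gpol f e))) fun x hx => by
      obtain ⟨y, rfl⟩ := Ideal.mem_span_singleton'.1 hx
      rw [map_mul]
      have h6 : pev (pev (o.comp (kinc k f)) (o (ku f))) (AdjoinRoot.root (gpol f e))
          (weq f e) = 0 := by
        rw [weq, map_add, map_add, map_mul, map_pow, map_pow, pev_C, pev_C, pev_C, pev_X, pev_X]
        change o (kq f (C (C f))) + o (ku f) ^ (e + 1) +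
          o (ku f) * AdjoinRoot.root (gpol f e) ^ e = 0
        rw [k_rel, map_mul, eq_neg_of_add_eq_zero_left hroot]
        change o (ku f) * o (kt f) + o (ku f) ^ (e + 1) + o (ku f) * -o (kt f + ku f ^ e) = 0
        rw [map_add, map_pow]
        ring
      rw [h6, mul_zero]
  refine AlgEquiv.ofAlgHom α' β ?_ ?_
  · refine Ideal.Quotient.algHom_ext k (pev_ext2 (k := k) (fun a => ?_) ?_ ?_)
    · change α' (pev (pev (o.comp (kinc k f)) (o (ku f))) (AdjoinRoot.root (gpol f e))
        (C (C a))) = q (C (C a))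
      rw [pev_C, pev_C]
      change α' (AdjoinRoot.of _ (kinc k f a)) = _
      rw [AdjoinRoot.liftAlgHom_of]
      change klift k _ _ _ h1 (kq f (C (C a))) = _
      rw [klift_q, pev_C, pev_C]
      rfl
    · change α' (pev (pev (o.comp (kinc k f)) (o (ku f))) (AdjoinRoot.root (gpol f e))
        (C X)) = q (C X)
      rw [pev_C, pev_X]
      change α' (AdjoinRoot.of _ (ku f)) = _
      rw [AdjoinRoot.liftAlgHom_of, hαu]
    · change α' (pev (pev (o.comp (kinc k f)) (o (ku f))) (AdjoinRoot.root (gpol f e)) X) = q X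
      rw [pev_X, AdjoinRoot.liftAlgHom_root]
  · refine AdjoinRoot.algHom_ext' ?_ ?_
    · refine k_ext k (fun a => ?_) ?_ ?_
      · change β (α' (AdjoinRoot.of _ (kq f (C (C a))))) = AdjoinRoot.of _ (kq f (C (C a)))
        rw [AdjoinRoot.liftAlgHom_of]
        change β (klift k _ _ _ h1 (kq f (C (C a)))) = _
        rw [klift_q, pev_C, pev_C]
        change pev (pev (o.comp (kinc k f)) (o (ku f))) (AdjoinRoot.root (gpol f e))
          (C (C a)) = _
        rw [pev_C, pev_C]
        rfl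
      · change β (α' (AdjoinRoot.of _ (ku f))) = AdjoinRoot.of _ (ku f)
        rw [AdjoinRoot.liftAlgHom_of, hαu]
        change pev (pev (o.comp (kinc k f)) (o (ku f))) (AdjoinRoot.root (gpol f e)) (C X) = _
        rw [pev_C, pev_X]
        rfl
      · change β (α' (AdjoinRoot.of _ (kt f))) = AdjoinRoot.of _ (kt f)
        rw [AdjoinRoot.liftAlgHom_of, hαt]
        change pev (pev (o.comp (kinc k f)) (o (ku f))) (AdjoinRoot.root (gpol f e))
          (-(X ^ e + C X ^ e)) = _
        rw [map_neg, map_add, map_pow, map_pow, pev_C, pev_X, pev_X,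
          eq_neg_of_add_eq_zero_left hroot, map_add, map_pow]
        change -(-(o (kt f) + o (ku f) ^ e) + o (ku f) ^ e) = o (kt f)
        ring
    · change β (α' (AdjoinRoot.root _)) = AdjoinRoot.root _
      rw [AdjoinRoot.liftAlgHom_root]
      change pev (pev (o.comp (kinc k f)) (o (ku f))) (AdjoinRoot.root (gpol f e)) X = _
      rw [pev_X]

end Pool.Agent.Helper13HC
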