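import Mathlib

/-!
# Chow groups of affine schemes and of smooth projective hypersurfaces: definitions
-/

set_option autoImplicit false

open Polynomial

namespace Pool.Agent.Helper13HC

/-- The data: the Chow groups of affine schemes and of projective hypersurfaces over a field `k`.

* `CH A r m` is Bloch's higher Chow group `CH_r(Spec A, m) ⊗ ℚ` (with `r + m` the dimension of the cycles
  on `Spec A × Δ^m`); for `m = 0` it is the group of cycles of dimension `r` modulo rational
  equivalence, with rational coefficients. Only `m = 0` and `m = 1` are used, and only algebras `A` of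
  finite type over `k` are meant.
* `A F i` is the group `A^i(X)` of cycles of codimension `i` on the hypersurface `X : F = 0` in the
  projective space of dimension `n + 1` modulo rational equivalence, with rational coefficients;
  `one F` is the class of `X` and `hyp F i` is the multiplication with the class `h` of a hyperplane
  section. -/
structure ChowData (k : Type) [Field k] where
  CH : (A : Type) → [CommRing A] → [Algebra k A] → ℤ → ℕ → Type
  [grp : ∀ (A : Type) [CommRing A] [Algebra k A] (r : ℤ) (m : ℕ), AddCommGroup (CH A r m)]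
  [mod : ∀ (A : Type) [CommRing A] [Algebra k A] (r : ℤ) (m : ℕ), Module ℚ (CH A r m)]
  A : {n : ℕ} → MvPolynomial (Fin (n + 2)) k → ℕ → Type
  [grpA : ∀ {n : ℕ} (F : MvPolynomial (Fin (n + 2)) k) (i : ℕ), AddCommGroup (A F i)]
  [modA : ∀ {n : ℕ} (F : MvPolynomial (Fin (n + 2)) k) (i : ℕ), Module ℚ (A F i)]
  one : ∀ {n : ℕ} (F : MvPolynomial (Fin (n + 2)) k), A F 0
  hyp : ∀ {n : ℕ} (F : MvPolynomial (Fin (n + 2)) k) (i : ℕ), A F i →ₗ[ℚ] A F (i + 1)

attribute [instance] ChowData.grp ChowData.mod ChowData.grpA ChowData.modA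

variable {k : Type} [Field k]

/-- The class `h^i` in `A^i(X)`. -/
def ChowData.power (T : ChowData k) {n : ℕ} (F : MvPolynomial (Fin (n + 2)) k) : ∀ i, T.A F i
  | 0 => T.one F
  | i + 1 => T.hyp F i (T.power F i)

/-- `F` is homogeneous of degree `d` and the partial derivatives of `F` have no common zero besides
`0`. For `k` algebraically closed of characteristic zero and `d ≥ 1` this means that the
hypersurface `F = 0` in the projective space is smooth (of degree `d`). -/
def IsSmoothForm {N : ℕ} (F : MvPolynomial (Fin N) k) (d : ℕ) : Prop :=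
  F.IsHomogeneous d ∧ ∀ z : Fin N → k, (∀ j, MvPolynomial.eval z (MvPolynomial.pderiv j F) = 0) →
    z = 0

/-- There is a localisation sequence
`CH_r(A, 1) → CH_r(A_f, 1) → CH_r(A / f) → CH_r(A) → CH_r(A_f) → 0`. -/
def LocSequence (T : ChowData k) (A : Type) [CommRing A] [Algebra k A] (f : A) (r : ℤ) : Prop :=
  ∃ (α : T.CH A r 1 →ₗ[ℚ] T.CH (Localization.Away f) r 1)
    (β : T.CH (Localization.Away f) r 1 →ₗ[ℚ] T.CH (A ⧸ Ideal.span {f}) r 0)
    (γ : T.CH (A ⧸ Ideal.span {f}) r 0 →ₗ[ℚ] T.CH A r 0)
    (δ : T.CH A r 0 →ₗ[ℚ] T.CH (Localization.Away f) r 0),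
    Function.Exact α β ∧ Function.Exact β γ ∧ Function.Exact γ δ ∧ Function.Surjective δ

/-- The pull-back to the covering `Spec A[y] / (g)` is injective on the Chow groups. -/
def CoverInjective (T : ChowData k) (A : Type) [CommRing A] [Algebra k A] (g : A[X]) : Prop :=
  ∀ r : ℤ, ∃ φ : T.CH A r 0 →ₗ[ℚ] T.CH (AdjoinRoot g) r 0, Function.Injective φ

/-- There is an exact sequence `A^i(X) → A^{i+1}(X) → CH_{n-i}(cone of X) → 0` for the hypersurface
`X : F = 0` of dimension `n`, whose first map is the multiplication with `h`. -/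
def ConeSequence (T : ChowData k) {n : ℕ} (F : MvPolynomial (Fin (n + 2)) k) (i : ℕ) : Prop :=
  ∃ ρ : T.A F (i + 1) →ₗ[ℚ] T.CH (MvPolynomial (Fin (n + 2)) k ⧸ Ideal.span {F}) (n - i) 0,
    Function.Exact (T.hyp F i) ρ ∧ Function.Surjective ρ

/-- `h · A^i(X) ⊆ ℚ h^{i+1}` for the hypersurface `X : F = 0`. -/
def MultipleOfPower (T : ChowData k) {n : ℕ} (F : MvPolynomial (Fin (n + 2)) k) (i : ℕ) : Prop :=
  ∀ a : T.A F i, ∃ c : ℚ, T.hyp F i a = c • T.power F (i + 1)

/-- The known properties of the Chow groups of affine schemes of finite type.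

* `iso`: isomorphic schemes have isomorphic Chow groups;
* `localization`: the localisation sequence (Bloch);
* `homotopy`: `CH_{r+1}(Spec A × 𝔸^1, m) = CH_r(Spec A, m)`;
* `cover`: the pull-back to a finite free covering `Spec A[y] / (g)`, `g` monic of positive degree, is
  injective, since its composition with the push-forward is the multiplication with the degree;
* `point`: `CH_r(k) = 0` for `r ≠ 0` and `CH_r(k, 1) = 0` for `r ≠ -1`. -/
structure IsAffineChow (T : ChowData k) : Prop where
  iso : ∀ {A B : Type} [CommRing A] [Algebra k A] [CommRing B] [Algebra k B], (A ≃ₐ[k] B) →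
    ∀ (r : ℤ) (m : ℕ), Nonempty (T.CH A r m ≃ₗ[ℚ] T.CH B r m)
  localization : ∀ (A : Type) [CommRing A] [Algebra k A] [Algebra.FiniteType k A] (f : A) (r : ℤ),
    LocSequence T A f r
  homotopy : ∀ (A : Type) [CommRing A] [Algebra k A] [Algebra.FiniteType k A] (r : ℤ) (m : ℕ),
    Nonempty (T.CH A[X] (r + 1) m ≃ₗ[ℚ] T.CH A r m)
  cover : ∀ (A : Type) [CommRing A] [Algebra k A] [Algebra.FiniteType k A] (g : A[X]), g.Monic →
    0 < g.natDegree → CoverInjective T A g
  point : ∀ r : ℤ, (r ≠ 0 → Subsingleton (T.CH k r 0)) ∧ (r ≠ -1 → Subsingleton (T.CH k r 1))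

/-- The known properties of the Chow groups, including those of the smooth hypersurfaces `X : F = 0`
of degree `d ≥ 1` and dimension `n`.

* `multiple`: `h · A^i(X) = ℚ h^{i+1}` (see the problem file);
* `cone`: the affine cone without the vertex is the line bundle `O(-1)` on `X` without the zero
  section, so its Chow group in codimension `i + 1` is `A^{i+1}(X) / h · A^i(X)`, and for `i + 1 ≤ n` the
  vertex may be added since the dimension `n - i` of the cycles is positive. -/
structure IsChow (T : ChowData k) : Prop extends IsAffineChow T where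
  multiple : ∀ {n d : ℕ} (F : MvPolynomial (Fin (n + 2)) k), 0 < d → IsSmoothForm F d →
    ∀ i : ℕ, MultipleOfPower T F i
  cone : ∀ {n d : ℕ} (F : MvPolynomial (Fin (n + 2)) k), 0 < d → IsSmoothForm F d →
    ∀ i : ℕ, i + 1 ≤ n → ConeSequence T F i

/-- `A^i(X) = ℚ h^i` for the hypersurface `X : F = 0`. -/
def GeneratedByPower (T : ChowData k) {n : ℕ} (F : MvPolynomial (Fin (n + 2)) k) (i : ℕ) : Prop :=
  ∀ a : T.A F i, ∃ c : ℚ, a = c • T.power F i

/-- The conjecture of Hartshorne for all smooth hypersurfaces of dimension `n` and degree `d`: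
`A^i(X) = ℚ h^i` for `1 ≤ i < n / 2` (the case `i = 0` is trivial). -/
def Hartshorne (T : ChowData k) (n d : ℕ) : Prop :=
  ∀ F : MvPolynomial (Fin (n + 2)) k, IsSmoothForm F d →
    ∀ i, 1 ≤ i → 2 * i < n → GeneratedByPower T F i

end Pool.Agent.Helper13HC
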