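import Pool.Agent.Helper13HC.Alg2
import Pool.Agent.Helper13HC.Defs

/-!
# Knörrer periodicity for Chow groups and the conjecture of Hartshorne
-/

set_option autoImplicit false

open Polynomial

namespace Pool.Agent.Helper13HC

variable {k : Type} [Field k] {T : ChowData k}

section vanish

lemma IsChow.iso_sub (hT : IsChow T) {A B : Type} [CommRing A] [Algebra k A] [CommRing B]
    [Algebra k B] (e : A ≃ₐ[k] B) {r : ℤ} {m : ℕ} (h : Subsingleton (T.CH B r m)) :
    Subsingleton (T.CH A r m) := by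
  obtain ⟨φ⟩ := hT.iso e r m
  exact φ.toEquiv.subsingleton

lemma IsChow.poly_sub (hT : IsChow T) {A : Type} [CommRing A] [Algebra k A]
    [Algebra.FiniteType k A] {r : ℤ} {m : ℕ} (h : Subsingleton (T.CH A (r - 1) m)) :
    Subsingleton (T.CH A[X] r m) := by
  obtain ⟨φ⟩ := hT.homotopy A (r - 1) m
  rw [sub_add_cancel] at φ
  exact φ.toEquiv.subsingleton

lemma IsChow.of_poly_sub (hT : IsChow T) {A : Type} [CommRing A] [Algebra k A]
    [Algebra.FiniteType k A] {r : ℤ} {m : ℕ} (h : Subsingleton (T.CH A[X] r m)) :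
    Subsingleton (T.CH A (r - 1) m) := by
  obtain ⟨φ⟩ := hT.homotopy A (r - 1) m
  rw [sub_add_cancel] at φ
  exact φ.symm.toEquiv.subsingleton

/-- The Chow groups of the affine space. -/
lemma IsChow.affine (hT : IsChow T) (N : ℕ) : ∀ r : ℤ,
    (r ≠ N → Subsingleton (T.CH (MvPolynomial (Fin N) k) r 0)) ∧
      (r ≠ N - 1 → Subsingleton (T.CH (MvPolynomial (Fin N) k) r 1)) := by
  induction N with
  | zero =>
    intro r
    refine ⟨fun h => hT.iso_sub (MvPolynomial.isEmptyAlgEquiv k (Fin 0)) ((hT.point r).1 ?_),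
      fun h => hT.iso_sub (MvPolynomial.isEmptyAlgEquiv k (Fin 0)) ((hT.point r).2 ?_)⟩
    · exact_mod_cast h
    · intro h'
      exact h (by rw [h']; norm_num)
  | succ N ih =>
    intro r
    refine ⟨fun h => hT.iso_sub (MvPolynomial.finSuccEquiv k N) (hT.poly_sub ((ih (r - 1)).1 ?_)),
      fun h => hT.iso_sub (MvPolynomial.finSuccEquiv k N) (hT.poly_sub ((ih (r - 1)).2 ?_))⟩
    · intro h'
      apply h
      push_cast
      omega
    · intro h'
      apply h
      push_cast
      omega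

/-- The quotient of `A[X]` by `X`. -/
noncomputable def quotX (k : Type) [Field k] (A : Type) [CommRing A] [Algebra k A] :
    (A[X] ⧸ Ideal.span {(X : A[X])}) ≃ₐ[k] A :=
  (Ideal.quotientEquivAlgOfEq k (by rw [C_0, sub_zero])).trans
    ((Polynomial.quotientSpanXSubCAlgEquiv (0 : A)).restrictScalars k)

/-- The groups `CH_r(Spec A × 𝔾_m, 1)`. -/
lemma IsChow.torus_aux (hT : IsChow T) (A : Type) [CommRing A] [Algebra k A]
    [Algebra.FiniteType k A] {r : ℤ} (h1 : Subsingleton (T.CH A (r - 1) 1))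
    (h2 : Subsingleton (T.CH A r 0)) :
    Subsingleton (T.CH (Localization.Away (X : A[X])) r 1) := by
  obtain ⟨α, β, γ, δ, h3, -, -, -⟩ := hT.localization A[X] X r
  have h4 : Subsingleton (T.CH A[X] r 1) := hT.poly_sub h1
  have h5 : Subsingleton (T.CH (A[X] ⧸ Ideal.span {(X : A[X])}) r 0) :=
    hT.iso_sub (quotX k A) h2
  refine subsingleton_of_forall_eq 0 fun x => ?_
  obtain ⟨y, rfl⟩ := (h3 x).1 (Subsingleton.elim _ _)
  rw [Subsingleton.elim y 0, map_zero]

/-- The Chow groups `CH_r(𝔸^N × 𝔾_m, 1)`. -/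
lemma IsChow.torus (hT : IsChow T) (N : ℕ) (r : ℤ) (hr : r ≠ N) :
    Subsingleton (T.CH (Localization.Away (X : (MvPolynomial (Fin N) k)[X])) r 1) :=
  hT.torus_aux _ (((hT.affine N) (r - 1)).2 (by omega)) (((hT.affine N) r).1 hr)

/-- The main step. -/
theorem IsChow.key (hT : IsChow T) {N : ℕ} (f : MvPolynomial (Fin N) k) {e : ℕ} (he : 0 < e)
    (r : ℤ) (hr : r ≠ N) (h : Subsingleton (T.CH (WR f e) r 0)) :
    Subsingleton (T.CH (MvPolynomial (Fin N) k ⧸ Ideal.span {f}) (r - 1) 0) := by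
  have hfin : Algebra.FiniteType k (KR f) :=
    inferInstanceAs (Algebra.FiniteType k (_ ⧸ Ideal.span {keq f}))
  -- the covering
  have hn : Nontrivial (KR f) :=
    (klift k (AlgHom.id k _) 1 f (one_mul f).symm : KR f →ₐ[k] _).toRingHom.domain_nontrivial
  have h1 : Subsingleton (T.CH (KR f) r 0) := by
    obtain ⟨φ, hφ⟩ := hT.cover (KR f) (gpol f e) (gpol_monic f he)
      (by rw [gpol_degree f]; exact he) r
    have h2 : Subsingleton (T.CH (AdjoinRoot (gpol f e)) r 0) := hT.iso_sub (coverEquiv k f e) h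
    exact hφ.subsingleton
  -- the localisation sequence
  have h3 : Subsingleton (T.CH (Localization.Away (ku f)) r 1) :=
    hT.iso_sub (locEquiv k f) (hT.torus N r hr)
  obtain ⟨α, β, γ, δ, -, h4, -, -⟩ := hT.localization (KR f) (ku f) r
  have h5 : Subsingleton (T.CH (KR f ⧸ Ideal.span {ku f}) r 0) := by
    refine subsingleton_of_forall_eq 0 fun x => ?_
    obtain ⟨y, rfl⟩ := (h4 x).1 (Subsingleton.elim _ _)
    rw [Subsingleton.elim y 0, map_zero]
  have h6 : Subsingleton (T.CH (MvPolynomial (Fin N) k ⧸ Ideal.span {f})[X] r 0) :=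
    hT.iso_sub (closedEquiv k f).symm h5
  exact hT.of_poly_sub h6

end vanish

end Pool.Agent.Helper13HC
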