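import Pool.Agent.Helper13HC.Susp

/-!
# The induction on the dimension
-/

set_option autoImplicit false

open Polynomial

namespace Pool.Agent.Helper13HC

variable {k : Type} [Field k] {T : ChowData k}

/-- `A^{i+1}(X) = ℚ h^{i+1}` in terms of the affine cone. -/
lemma IsChow.generated_iff (hT : IsChow T) {n d : ℕ} {F : MvPolynomial (Fin (n + 2)) k}
    (hd : 0 < d) (hF : IsSmoothForm F d) {i : ℕ} (hi : i + 1 ≤ n) :
    GeneratedByPower T F (i + 1) ↔
      Subsingleton (T.CH (MvPolynomial (Fin (n + 2)) k ⧸ Ideal.span {F}) (n - i) 0) := by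
  obtain ⟨ρ, h1, h2⟩ := hT.cone F hd hF i hi
  constructor
  · intro h
    refine subsingleton_of_forall_eq 0 fun x => ?_
    obtain ⟨a, rfl⟩ := h2 x
    obtain ⟨c, rfl⟩ := h a
    refine (h1 _).2 ⟨c • T.power F i, ?_⟩
    rw [map_smul]
    rfl
  · intro h a
    obtain ⟨b, rfl⟩ := (h1 a).1 (Subsingleton.elim _ _)
    exact hT.multiple F hd hF i b

/-- The step: the dimension `n + 2` and the codimension `i + 1`. -/
theorem IsChow.step [CharZero k] (hT : IsChow T) {n d : ℕ} {F : MvPolynomial (Fin (n + 2)) k}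
    (hd : 2 ≤ d) (hF : IsSmoothForm F d) {i : ℕ} (h1 : 1 ≤ i) (h2 : i ≤ n)
    (h : GeneratedByPower T (n := n + 2) (susp F (d - 1)) (i + 1)) : GeneratedByPower T F i := by
  obtain ⟨e, rfl⟩ : ∃ e, d = e + 1 := ⟨d - 1, by omega⟩
  obtain ⟨j, rfl⟩ : ∃ j, i = j + 1 := ⟨i - 1, by omega⟩
  have he : 0 < e := by omega
  rw [Nat.add_sub_cancel] at h
  rw [hT.generated_iff (n := n + 2) (by omega) (susp_smooth he hF) (by omega)] at h
  rw [hT.generated_iff (by omega) hF h2]
  have e1 : ((n + 2 : ℕ) : ℤ) - (j + 1 : ℕ) = (n : ℤ) - j + 1 := by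
    push_cast
    ring
  rw [e1] at h
  have h3 : Subsingleton (T.CH (WR F e) ((n : ℤ) - j + 1) 0) :=
    hT.iso_sub (suspEquiv k F e).symm h
  have h4 := hT.key F he ((n : ℤ) - j + 1) (by push_cast; omega) h3
  rwa [add_sub_cancel_right] at h4

/-- The conjecture for the dimension `n + 2` implies the conjecture for the dimension `n`. -/
theorem IsChow.hartshorne_step [CharZero k] (hT : IsChow T) {n d : ℕ} (hd : 2 ≤ d)
    (h : Hartshorne T (n + 2) d) : Hartshorne T n d := by
  intro F hF i h1 h2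
  refine hT.step hd hF h1 (by omega) (h _ ?_ _ (by omega) (by omega))
  obtain ⟨e, rfl⟩ : ∃ e, d = e + 1 := ⟨d - 1, by omega⟩
  exact susp_smooth (by omega) hF

theorem IsChow.hartshorne_add [CharZero k] (hT : IsChow T) {n d : ℕ} (hd : 2 ≤ d) (m : ℕ)
    (h : Hartshorne T (n + 2 * m) d) : Hartshorne T n d := by
  induction m with
  | zero => exact h
  | succ m ih => exact ih (hT.hartshorne_step hd h)

end Pool.Agent.Helper13HC
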