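import Pool.Agent.Helper13HC.Main

/-!
# The suspension of a hypersurface
-/

set_option autoImplicit false

open Polynomial

namespace Pool.Agent.Helper13HC

variable {k : Type} [Field k] {T : ChowData k}

/-- The form `F(x) + u^(e+1) + u y^e` in two more variables. -/
noncomputable def susp {N : ℕ} (F : MvPolynomial (Fin N) k) (e : ℕ) :
    MvPolynomial (Fin (N + 2)) k :=
  MvPolynomial.rename (fun j => j.succ.succ) F + MvPolynomial.X 1 ^ (e + 1) +
    MvPolynomial.X 1 * MvPolynomial.X 0 ^ e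

lemma susp_homogeneous {N : ℕ} {F : MvPolynomial (Fin N) k} {e : ℕ}
    (h : F.IsHomogeneous (e + 1)) : (susp F e).IsHomogeneous (e + 1) := by
  refine (h.rename_isHomogeneous.add ?_).add ?_
  · simpa using (MvPolynomial.isHomogeneous_X k (1 : Fin (N + 2))).pow (e + 1)
  · have h1 := (MvPolynomial.isHomogeneous_X k (1 : Fin (N + 2))).mul
      ((MvPolynomial.isHomogeneous_X k (0 : Fin (N + 2))).pow e)
    convert h1 using 1
    ring

lemma succ_succ_inj {N : ℕ} : Function.Injective (fun j : Fin N => j.succ.succ) := by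
  intro a b h
  simpa using h

lemma pderiv_susp_succ {N : ℕ} (F : MvPolynomial (Fin N) k) (e : ℕ) (j : Fin N) :
    MvPolynomial.pderiv j.succ.succ (susp F e) =
      MvPolynomial.rename (fun j => j.succ.succ) (MvPolynomial.pderiv j F) := by
  have h0 : (0 : Fin (N + 2)) ≠ j.succ.succ := (Fin.succ_ne_zero _).symm
  have h1 : (1 : Fin (N + 2)) ≠ j.succ.succ := by
    intro h
    rw [← Fin.succ_zero_eq_one, Fin.succ_inj] at h
    exact (Fin.succ_ne_zero _) h.symm
  rw [susp, map_add, map_add, MvPolynomial.pderiv_rename succ_succ_inj, Derivation.leibniz_pow,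
    Derivation.leibniz, Derivation.leibniz_pow, MvPolynomial.pderiv_X_of_ne h0,
    MvPolynomial.pderiv_X_of_ne h1]
  simp

lemma pderiv_rename_zero {N : ℕ} (F : MvPolynomial (Fin N) k) {i : Fin (N + 2)}
    (hi : ∀ j : Fin N, j.succ.succ ≠ i) :
    MvPolynomial.pderiv i (MvPolynomial.rename (fun j => j.succ.succ) F) = 0 := by
  refine MvPolynomial.pderiv_eq_zero_of_notMem_vars fun h => ?_
  have h1 := MvPolynomial.vars_rename _ _ h
  rw [Finset.mem_image] at h1
  obtain ⟨j, -, hj⟩ := h1
  exact hi j hj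

lemma pderiv_susp_one {N : ℕ} (F : MvPolynomial (Fin N) k) (e : ℕ) (z : Fin (N + 2) → k) :
    MvPolynomial.eval z (MvPolynomial.pderiv 1 (susp F e)) = (e + 1) * z 1 ^ e + z 0 ^ e := by
  have h1 : ∀ j : Fin N, j.succ.succ ≠ 1 := fun j h => by
    rw [← Fin.succ_zero_eq_one, Fin.succ_inj] at h
    exact (Fin.succ_ne_zero _) h
  rw [susp, map_add, map_add, map_add, map_add, pderiv_rename_zero F h1, Derivation.leibniz_pow,
    Derivation.leibniz, Derivation.leibniz_pow, MvPolynomial.pderiv_X_self,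
    MvPolynomial.pderiv_X_of_ne (Fin.zero_ne_one)]
  simp

lemma pderiv_susp_zero {N : ℕ} (F : MvPolynomial (Fin N) k) (e : ℕ) (z : Fin (N + 2) → k) :
    MvPolynomial.eval z (MvPolynomial.pderiv 0 (susp F e)) = z 1 * (e * z 0 ^ (e - 1)) := by
  have h1 : ∀ j : Fin N, j.succ.succ ≠ 0 := fun j => Fin.succ_ne_zero _
  rw [susp, map_add, map_add, map_add, map_add, pderiv_rename_zero F h1, Derivation.leibniz_pow,
    Derivation.leibniz, Derivation.leibniz_pow, MvPolynomial.pderiv_X_self,
    MvPolynomial.pderiv_X_of_ne (Fin.zero_ne_one).symm]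
  simp

lemma susp_smooth [CharZero k] {N : ℕ} {F : MvPolynomial (Fin N) k} {e : ℕ} (he : 0 < e)
    (h : IsSmoothForm F (e + 1)) : IsSmoothForm (susp F e) (e + 1) := by
  refine ⟨susp_homogeneous h.1, fun z hz => ?_⟩
  have h1 : (fun j : Fin N => z j.succ.succ) = 0 := by
    refine h.2 _ fun j => ?_
    have h2 := hz j.succ.succ
    rw [pderiv_susp_succ, MvPolynomial.eval_rename] at h2
    exact h2
  have h3 : (e + 1 : k) * z 1 ^ e + z 0 ^ e = 0 := by
    rw [← pderiv_susp_one F e z]
    exact hz 1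
  have h4 : z 1 * (e * z 0 ^ (e - 1)) = 0 := by
    rw [← pderiv_susp_zero F e z]
    exact hz 0
  have he' : (e : k) ≠ 0 := Nat.cast_ne_zero.2 he.ne'
  have he'' : (e + 1 : k) ≠ 0 := by exact_mod_cast (Nat.succ_ne_zero e)
  have h5 : z 1 = 0 ∧ z 0 = 0 := by
    rcases mul_eq_zero.1 h4 with h6 | h6
    · rw [h6, zero_pow he.ne', mul_zero, zero_add] at h3
      exact ⟨h6, pow_eq_zero_iff he.ne' |>.1 h3⟩
    · have h7 : z 0 ^ (e - 1) = 0 := (mul_eq_zero.1 h6).resolve_left he'
      have h8 : z 0 = 0 := by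
        by_contra h9
        exact pow_ne_zero _ h9 h7
      rw [h8, zero_pow he.ne', add_zero] at h3
      exact ⟨pow_eq_zero_iff he.ne' |>.1 ((mul_eq_zero.1 h3).resolve_left he''), h8⟩
  funext j
  refine Fin.cases h5.2 (fun j => ?_) j
  refine Fin.cases ?_ (fun j => ?_) j
  · exact h5.1
  · exact congrFun h1 j

/-- The coordinate ring of the cone. -/
noncomputable def suspEquiv (k : Type) [Field k] {N : ℕ} (F : MvPolynomial (Fin N) k) (e : ℕ) :
    (MvPolynomial (Fin (N + 2)) k ⧸ Ideal.span {susp F e}) ≃ₐ[k] WR F e := by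
  let φ : MvPolynomial (Fin (N + 2)) k ≃ₐ[k] (MvPolynomial (Fin N) k)[X][X] :=
    (MvPolynomial.finSuccEquiv k (N + 1)).trans
      (Polynomial.mapAlgEquiv (MvPolynomial.finSuccEquiv k N))
  have h0 : φ (MvPolynomial.X 0) = X := by
    change Polynomial.map _ (MvPolynomial.finSuccEquiv k (N + 1) (MvPolynomial.X 0)) = _
    rw [MvPolynomial.finSuccEquiv_X_zero, Polynomial.map_X]
  have h1 : φ (MvPolynomial.X 1) = C X := by
    change Polynomial.map _ (MvPolynomial.finSuccEquiv k (N + 1) (MvPolynomial.X 1)) = _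
    rw [← Fin.succ_zero_eq_one, MvPolynomial.finSuccEquiv_X_succ, Polynomial.map_C]
    change C (MvPolynomial.finSuccEquiv k N (MvPolynomial.X 0)) = _
    rw [MvPolynomial.finSuccEquiv_X_zero]
  have h2 : ∀ G : MvPolynomial (Fin N) k,
      φ (MvPolynomial.rename (fun j => j.succ.succ) G) = C (C G) := by
    intro G
    have h3 : (φ.toAlgHom.comp (MvPolynomial.rename (fun j : Fin N => j.succ.succ))) =
        ((CAlgHom : (MvPolynomial (Fin N) k)[X] →ₐ[k] _).comp
          (CAlgHom : MvPolynomial (Fin N) k →ₐ[k] _)) := by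
      refine MvPolynomial.algHom_ext fun j => ?_
      change φ (MvPolynomial.rename _ (MvPolynomial.X j)) = C (C (MvPolynomial.X j))
      rw [MvPolynomial.rename_X]
      change Polynomial.map _ (MvPolynomial.finSuccEquiv k (N + 1) (MvPolynomial.X _)) = _
      rw [MvPolynomial.finSuccEquiv_X_succ, Polynomial.map_C]
      change C (MvPolynomial.finSuccEquiv k N (MvPolynomial.X _)) = _
      rw [MvPolynomial.finSuccEquiv_X_succ]
    exact DFunLike.congr_fun h3 G
  have h4 : φ (susp F e) = weq F e := by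
    rw [susp, map_add, map_add, map_mul, map_pow, map_pow, h0, h1, h2, weq]
  refine Ideal.quotientEquivAlg _ _ φ ?_
  rw [Ideal.map_span, Set.image_singleton]
  change _ = Ideal.span {φ (susp F e)}
  rw [h4]

end Pool.Agent.Helper13HC
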